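import Pool.Agent.J6H9.EX.Stm

/-!
# Module EX-GRD (owner helper9): greedy assignment
-/

set_option autoImplicit false

namespace Pool.Agent.J6H61.EX

open Finset

/-- **EX-GRD** -/
theorem main : Pool.Agent.J6H9.EX.S_GRD := by
  classical
  intro X v Λ κ R wm hR hwm hv hΛ hκ
  induction X using Finset.induction_on with
  | empty =>
    refine ⟨fun _ => 0, by simp, fun n => ?_⟩
    simp [hwm]
  | insert c X hc ih =>
    obtain ⟨a, ha, hload⟩ := ih (fun c' h => hv c' (Finset.mem_insert_of_mem h))
      (fun c' h => hΛ c' (Finset.mem_insert_of_mem h)) (fun c' h => hκ c' (Finset.mem_insert_of_mem h))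
    have hRpos : (0 : ℝ) < R := by exact_mod_cast hR
    have hcard : R ≤ (Λ c).card := hΛ c (Finset.mem_insert_self c X)
    have hne : (Λ c).Nonempty := Finset.card_pos.mp (lt_of_lt_of_le hR hcard)
    set L : ℕ → ℝ := fun n => ∑ c' ∈ X.filter (fun c' => a c' = n), κ c' n with hL
    have hL0 : ∀ n, 0 ≤ L n := by
      intro n
      refine Finset.sum_nonneg fun c' hc' => ?_
      obtain ⟨h1, h2⟩ := Finset.mem_filter.mp hc'
      have h3 := ha c' h1
      rw [h2] at h3
      exact (hκ c' (Finset.mem_insert_of_mem h1) n h3).1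
    obtain ⟨m, hm, hmin⟩ := Finset.exists_min_image (Λ c) L hne
    have hsumL : ∑ n ∈ Λ c, L n ≤ ∑ c' ∈ X, v c' := by
      have h1 : ∑ n ∈ Λ c, L n = ∑ c' ∈ X, ∑ n ∈ Λ c, if a c' = n then κ c' n else 0 := by
        rw [Finset.sum_comm]
        refine Finset.sum_congr rfl fun n _ => ?_
        simp only [hL]
        rw [Finset.sum_filter]
      rw [h1]
      refine Finset.sum_le_sum fun c' hc' => ?_
      rw [Finset.sum_ite_eq]
      split_ifs with h
      · exact (hκ c' (Finset.mem_insert_of_mem hc') (a c') (ha c' hc')).2.1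
      · exact hv c' (Finset.mem_insert_of_mem hc')
    have hLm : L m ≤ (∑ c' ∈ X, v c') / R := by
      rw [le_div_iff₀ hRpos]
      calc L m * R ≤ L m * ((Λ c).card : ℝ) := by
            refine mul_le_mul_of_nonneg_left ?_ (hL0 m)
            exact_mod_cast hcard
        _ = ∑ _n ∈ Λ c, L m := by rw [Finset.sum_const, nsmul_eq_mul, mul_comm]
        _ ≤ ∑ n ∈ Λ c, L n := Finset.sum_le_sum fun n hn => hmin n hn
        _ ≤ _ := hsumL
    have hvc : 0 ≤ v c := hv c (Finset.mem_insert_self c X)
    have hmono : (∑ c' ∈ X, v c') / R ≤ (∑ c' ∈ insert c X, v c') / R := by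
      rw [Finset.sum_insert hc]
      exact div_le_div_of_nonneg_right (by linarith) hRpos.le
    refine ⟨Function.update a c m, ?_, fun n => ?_⟩
    · intro c' hc'
      rcases Finset.mem_insert.mp hc' with rfl | h
      · simpa using hm
      · have hne' : c' ≠ c := fun h' => hc (h' ▸ h)
        rw [Function.update_of_ne hne']
        exact ha c' h
    · have hfilt : X.filter (fun c' => Function.update a c m c' = n) = X.filter (fun c' => a c' = n) := by
        refine Finset.filter_congr fun c' hc' => ?_
        have hne' : c' ≠ c := fun h' => hc (h' ▸ hc')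
        rw [Function.update_of_ne hne']
      rw [Finset.filter_insert, hfilt]
      split_ifs with h
      · rw [Function.update_self] at h
        subst h
        rw [Finset.sum_insert (by simp [hc])]
        have h1 := (hκ c (Finset.mem_insert_self c X) m hm).2.2
        have h2 : ∑ c' ∈ X.filter (fun c' => a c' = m), κ c' m = L m := rfl
        rw [h2]
        linarith
      · exact (hload n).trans (by linarith)

end Pool.Agent.J6H61.EX
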